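import Pool.Agent.Helper64.PM.Light
import Pool.Agent.Helper2.PM.Colouring
import Pool.Agent.Helper30.PM.Labels

/-! PM-7 (project PM, MP_34cda4_co): the lemma on bad pairs. -/

set_option autoImplicit false

namespace Pool.Agent.Helper35.PM

open Finset
open scoped Classical

theorem mem_filt {α : Type} {S : Finset α} {P : α → Prop} {inst : DecidablePred P} {x : α}
    (h : x ∈ S.filter P) : x ∈ S ∧ P x := Finset.mem_filter.1 h

theorem split_aux {α : Type} {S : Finset α} {P : α → Prop} {i : DecidablePred P} {b : ℝ}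
    (h : ((S.filter P).card : ℝ) ≤ b) :
    ∃ T : Finset α, (S.card : ℝ) ≤ b + T.card ∧ ∀ p ∈ T, p ∈ S ∧ ¬ P p := by
  refine ⟨S.filter (fun x => ¬ P x), ?_, fun p hp => Finset.mem_filter.1 hp⟩
  have h1 := Finset.card_filter_add_card_filter_not (s := S) P
  rw [← h1]
  push_cast
  linarith

/-- PM-7: the lemma on bad pairs. -/
theorem bad_le (k κ : ℕ) (Λ δ : ℝ) (hΛ : 1 ≤ Λ) (hδ : 0 < δ) : ∃ C : ℝ, 0 < C ∧
    ∀ (V : Type) [Fintype V] (s : Sys V) (D η : ℝ) (q : ℕ), s.OK Λ D η q → C * η ≤ 1 →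
      ¬ HasPG s.G k → ∀ X ⊆ s.B,
        ((s.Bad κ X).card : ℝ) ≤ δ * D * (s.Act X).card + C * D * X.card := by
  have hΛ0 : 0 < Λ := by linarith
  set δ₁ : ℝ := δ / (2 ^ (κ + 7) * Λ) with hδ₁
  have hδ₁0 : 0 < δ₁ := by positivity
  set τ : ℝ := δ₁ / (8 * k + 8) with hτ
  have hτ0 : 0 < τ := by positivity
  set C : ℝ := Λ / τ + 4 / (τ * δ) + 1 with hC
  have hC0 : 0 < C := by positivity
  refine ⟨C, hC0, ?_⟩
  intro V _ s D η q hs hη hno X hX
  have hD : 0 < D := lt_of_lt_of_le one_pos hs.one_le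
  have hη0 := hs.eta_pos
  by_contra hcon
  push Not at hcon
  -- the heavy part
  have hheavy := heavy_le s Λ D η q hs X hX κ τ hτ0
  obtain ⟨L, hLc, hL⟩ := split_aux hheavy
  have hLB : L ⊆ s.Bad κ X := fun p hp => (hL p hp).1
  have h1 : D / τ * (Λ * X.card + 2 * η * (s.Act X).card) ≤
      C * D * X.card + δ / 2 * D * (s.Act X).card := by
    have e1 : D / τ * (Λ * X.card + 2 * η * (s.Act X).card) =
        (Λ / τ) * D * X.card + (2 * η / τ) * D * (s.Act X).card := by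
      field_simp
    rw [e1]
    have e2 : Λ / τ ≤ C := by
      rw [hC]
      have : 0 < 4 / (τ * δ) := by positivity
      linarith
    have e3 : 2 * η / τ ≤ δ / 2 := by
      have e4 : 4 / (τ * δ) * η ≤ 1 := by
        refine le_trans ?_ hη
        apply mul_le_mul_of_nonneg_right _ hη0.le
        rw [hC]
        have : 0 < Λ / τ := by positivity
        linarith
      have e5 : 4 / (τ * δ) * η = (2 * η / τ) * (2 / δ) := by field_simp; ring
      rw [e5] at e4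
      have e6 : 2 * η / τ = (2 * η / τ) * (2 / δ) * (δ / 2) := by field_simp
      rw [e6]
      calc (2 * η / τ) * (2 / δ) * (δ / 2) ≤ 1 * (δ / 2) :=
            mul_le_mul_of_nonneg_right e4 (by positivity)
        _ = δ / 2 := one_mul _
    have e7 : (0 : ℝ) ≤ D * X.card := by positivity
    have e8 : (0 : ℝ) ≤ D * (s.Act X).card := by positivity
    nlinarith [mul_le_mul_of_nonneg_right e2 e7, mul_le_mul_of_nonneg_right e3 e8]
  have hLbig : δ / 2 * D * (s.Act X).card < L.card := by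
    have : (0 : ℝ) ≤ D * (s.Act X).card := by positivity
    linarith
  -- the colouring
  obtain ⟨Y, φ, hY, hφ, hcol⟩ := exists_colouring s κ X L hLB
  obtain ⟨L1, hL1c, hL1⟩ : ∃ T : Finset (V × V), L.card ≤ 2 ^ (κ + 2) * T.card ∧
      ∀ p ∈ T, p ∈ L ∧ s.N p.1 ∩ X ⊆ Y ∧
        ∃ x ∈ s.N p.1 ∩ X, ∃ y ∈ s.N p.1 ∩ X, φ p.2 x ≠ φ p.2 y :=
    ⟨_, hcol, fun p hp => mem_filt hp⟩
  -- the labels
  obtain ⟨W, hW, hlab⟩ := exists_labels s Λ D η q hΛ hs κ X hX L1 (fun p hp => hLB (hL1 p hp).1)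
  obtain ⟨L2, hL2c, hL2⟩ : ∃ T : Finset (V × V), (L1.card : ℝ) ≤ 16 * Λ * D * (T.card : ℝ) ∧
      ∀ p ∈ T, p ∈ L1 ∧ p.2 ∈ W ∧ s.N p.1 ∩ W = {p.2} ∧
        ∀ z ∈ insert p.2 (s.N p.1 ∩ X), Disjoint (s.Bk z) W :=
    ⟨_, hlab, fun p hp => mem_filt hp⟩
  have h2 : (L.card : ℝ) ≤ 2 ^ (κ + 2) * (16 * Λ * D * (L2.card : ℝ)) := by
    have : (L.card : ℝ) ≤ 2 ^ (κ + 2) * (L1.card : ℝ) := by exact_mod_cast hL1c
    refine this.trans ?_
    apply mul_le_mul_of_nonneg_left hL2c (by positivity)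
  have h3 : (2 : ℝ) ^ (κ + 2) * (16 * Λ * D * (L2.card : ℝ)) =
      2 ^ (κ + 7) * Λ * D * L2.card / 2 := by
    rw [pow_add, pow_add]
    ring
  rw [h3] at h2
  have h4 : δ₁ * (s.Act X).card < L2.card := by
    have e1 : δ / 2 * D * (s.Act X).card < 2 ^ (κ + 7) * Λ * D * L2.card / 2 :=
      lt_of_lt_of_le hLbig h2
    have e2 : 0 < 2 ^ (κ + 7) * Λ * D / 2 := by positivity
    have e3 : δ / 2 * D * (s.Act X).card = (2 ^ (κ + 7) * Λ * D / 2) * (δ₁ * (s.Act X).card) := by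
      rw [hδ₁]
      field_simp
    rw [e3] at e1
    have e4 : 2 ^ (κ + 7) * Λ * D * L2.card / 2 = (2 ^ (κ + 7) * Λ * D / 2) * L2.card := by ring
    rw [e4] at e1
    exact lt_of_mul_lt_mul_left e1 e2.le
  have hL2ne : L2.Nonempty := by
    rw [← Finset.card_pos]
    have : (0 : ℝ) < L2.card := lt_of_le_of_lt (by positivity) h4
    exact_mod_cast this
  apply hno
  refine hasPG_of_light s Λ D η q hs κ k X Y W hX hY hW φ hφ L2
    (fun p hp => hLB (hL1 p (hL2 p hp).1).1) hL2ne τ δ₁ hτ0 ?_ ?_ ?_ ?_ h4.le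
  · rw [hτ, mul_div_assoc', div_le_iff₀ (by positivity)]
    nlinarith
  · intro p hp z hz
    have := (hL p (hL1 p (hL2 p hp).1).1).2
    push Not at this
    exact this z hz
  · intro p hp
    exact (hL1 p (hL2 p hp).1).2
  · intro p hp
    exact (hL2 p hp).2

end Pool.Agent.Helper35.PM
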