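import Pool.Agent.Helper35.PM.Defs2

/-! PM-7a (project PM, MP_34cda4_co): the heavy pairs. -/

set_option autoImplicit false

namespace Pool.Agent.Helper35.PM

open Finset
open scoped Classical

/-- double counting: the number of pairs (z, a), `a` active, `z` one of its rows in `X` -/
theorem sum_dg {V : Type} (s : Sys V) (X : Finset V) :
    ∑ z ∈ X, s.dg X z = 2 * (s.Act X).card := by
  have h1 : ∀ z ∈ X, s.dg X z = ∑ a ∈ s.Act X, if z ∈ s.N a then 1 else 0 := by
    intro z _
    unfold Sys.dg
    rw [Finset.card_filter]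
  rw [Finset.sum_congr rfl h1, Finset.sum_comm]
  have h2 : ∀ a ∈ s.Act X, (∑ z ∈ X, if z ∈ s.N a then 1 else 0) = 2 := by
    intro a ha
    rw [← Finset.card_filter]
    have h3 : X.filter (fun z => z ∈ s.N a) = s.N a ∩ X := by
      ext z
      simp only [Finset.mem_filter, Finset.mem_inter]
      tauto
    rw [h3]
    exact (Finset.mem_filter.1 ha).2.1
  rw [Finset.sum_congr rfl h2, Finset.sum_const, smul_eq_mul, mul_comm]

theorem card_filter_le_of {α : Type} {S T : Finset α} {P : α → Prop} {inst : DecidablePred P}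
    (h : ∀ x ∈ S, P x → x ∈ T) : (S.filter P).card ≤ T.card := by
  apply Finset.card_le_card
  intro x hx
  rw [Finset.mem_filter] at hx
  exact h x hx.1 hx.2

/-- PM-7a: the heavy pairs. -/
theorem heavy_le {V : Type} [Fintype V] (s : Sys V) (Λ D η : ℝ) (q : ℕ) (hs : s.OK Λ D η q)
    (X : Finset V) (hX : X ⊆ s.B) (κ : ℕ) (τ : ℝ) (hτ : 0 < τ) :
    (((s.Bad κ X).filter fun p => ∃ z ∈ s.N p.1 ∩ X,
        τ * s.dg X z < s.mu X z p.2).card : ℝ) ≤
      D / τ * (Λ * X.card + 2 * η * (s.Act X).card) := by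
  have hD : 0 < D := lt_of_lt_of_le one_pos hs.one_le
  have hΛ : 0 ≤ Λ := by
    obtain ⟨b, hb⟩ := hs.rows_ne
    have h1 := hs.back_card b hb
    have h2 : (0 : ℝ) ≤ (s.Bk b).card := Nat.cast_nonneg _
    by_contra hc
    push Not at hc
    nlinarith
  set F : V → Finset V := fun z => (s.B \ X).filter (fun w => τ * s.dg X z < s.mu X z w) with hF
  have hcount : (((s.Bad κ X).filter fun p => ∃ z ∈ s.N p.1 ∩ X,
      τ * s.dg X z < s.mu X z p.2).card) ≤ ∑ z ∈ X, ∑ w ∈ F z, s.mu X z w := by
    have hsub : (((s.Bad κ X).filter fun p => ∃ z ∈ s.N p.1 ∩ X,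
      τ * s.dg X z < s.mu X z p.2).card) ≤ (X.biUnion (fun z => (F z).biUnion (fun w =>
        ((s.Act X).filter (fun a => z ∈ s.N a ∧ w ∈ s.N a)).image (fun a => (a, w))))).card := by
      apply card_filter_le_of
      rintro p hp1 ⟨z, hz, hpz⟩
      obtain ⟨hp2, hp3, _, _⟩ := Finset.mem_filter.1 hp1
      obtain ⟨hp4, hp5⟩ := Finset.mem_product.1 hp2
      obtain ⟨hz1, hz2⟩ := Finset.mem_inter.1 hz
      rw [Finset.mem_biUnion]
      refine ⟨z, hz2, ?_⟩
      rw [Finset.mem_biUnion]
      refine ⟨p.2, Finset.mem_filter.2 ⟨hp5, hpz⟩, ?_⟩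
      rw [Finset.mem_image]
      exact ⟨p.1, Finset.mem_filter.2 ⟨hp4, hz1, hp3⟩, rfl⟩
    refine hsub.trans (Finset.card_biUnion_le.trans ?_)
    refine Finset.sum_le_sum (fun z _ => Finset.card_biUnion_le.trans ?_)
    refine Finset.sum_le_sum (fun w _ => Finset.card_image_le.trans ?_)
    exact le_rfl
  have hz : ∀ z ∈ X, (∑ w ∈ F z, (s.mu X z w : ℝ)) ≤ D / τ * (Λ + η * s.dg X z) := by
    intro z _
    set Az := (s.Act X).filter (fun a => z ∈ s.N a) with hAz
    have hdg : s.dg X z = Az.card := rfl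
    have hAzA : ∀ a ∈ Az, a ∈ s.A := fun a ha =>
      (Finset.mem_filter.1 (Finset.mem_filter.1 ha).1).1
    have hmu : ∀ w, s.mu X z w = ∑ a ∈ Az, if w ∈ s.N a then 1 else 0 := by
      intro w
      unfold Sys.mu
      rw [← Finset.card_filter, hAz, Finset.filter_filter]
    have hmudg : ∀ w, s.mu X z w ≤ s.dg X z := by
      intro w
      rw [hmu, ← Finset.card_filter, hdg]
      exact Finset.card_filter_le _ _
    rcases Nat.eq_zero_or_pos (s.dg X z) with h0 | hpos
    · have hFe : F z = ∅ := by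
        rw [Finset.eq_empty_iff_forall_notMem]
        intro w hw
        have h1 := (Finset.mem_filter.1 hw).2
        have h2 := hmudg w
        rw [h0] at h2
        have h3 : s.mu X z w = 0 := by omega
        rw [h0, h3] at h1
        simp at h1
      rw [hFe, Finset.sum_empty, h0]
      have := hs.eta_pos
      positivity
    · have hpos' : (0 : ℝ) < s.dg X z := by exact_mod_cast hpos
      -- second moment
      have hsq : (∑ w ∈ s.B \ X, (s.mu X z w : ℝ) ^ 2) ≤
          s.dg X z * (Λ * D) + (s.dg X z : ℝ) ^ 2 * (η * D) := by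
        have h1 : ∀ w ∈ s.B \ X, (s.mu X z w : ℝ) ^ 2 =
            ∑ a ∈ Az, ∑ a' ∈ Az, if w ∈ s.N a ∩ s.N a' then (1 : ℝ) else 0 := by
          intro w _
          rw [hmu]
          push_cast
          rw [sq, Finset.sum_mul_sum]
          refine Finset.sum_congr rfl (fun a _ => Finset.sum_congr rfl (fun a' _ => ?_))
          by_cases h1 : w ∈ s.N a <;> by_cases h2 : w ∈ s.N a' <;> simp [h1, h2]
        rw [Finset.sum_congr rfl h1, Finset.sum_comm]
        have h2 : ∀ a ∈ Az, (∑ w ∈ s.B \ X, ∑ a' ∈ Az,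
            if w ∈ s.N a ∩ s.N a' then (1 : ℝ) else 0) ≤ Λ * D + s.dg X z * (η * D) := by
          intro a ha
          rw [Finset.sum_comm]
          have h3 : ∀ a' ∈ Az, (∑ w ∈ s.B \ X, if w ∈ s.N a ∩ s.N a' then (1 : ℝ) else 0) ≤
              (if a' = a then Λ * D else 0) + η * D := by
            intro a' ha'
            have h4 : (∑ w ∈ s.B \ X, if w ∈ s.N a ∩ s.N a' then (1 : ℝ) else 0) ≤
                ((s.N a ∩ s.N a').card : ℝ) := by
              rw [← Finset.sum_filter, Finset.sum_const, nsmul_eq_mul, mul_one]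
              norm_cast
              apply Finset.card_le_card
              intro w hw
              exact (Finset.mem_filter.1 hw).2
            refine h4.trans ?_
            by_cases haa : a' = a
            · rw [if_pos haa, haa, Finset.inter_self]
              have := hs.card_le a (hAzA a ha)
              have := mul_pos hs.eta_pos hD
              linarith
            · rw [if_neg haa, zero_add]
              exact hs.overlap a (hAzA a ha) a' (hAzA a' ha') (fun h => haa h.symm)
          refine (Finset.sum_le_sum h3).trans ?_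
          rw [Finset.sum_add_distrib, Finset.sum_ite_eq' Az a, if_pos ha, Finset.sum_const,
            nsmul_eq_mul, ← hdg]
        refine (Finset.sum_le_sum h2).trans ?_
        rw [Finset.sum_const, nsmul_eq_mul, ← hdg]
        apply le_of_eq
        ring
      have h5 : ∀ w ∈ F z, (s.mu X z w : ℝ) ≤ (s.mu X z w : ℝ) ^ 2 / (τ * s.dg X z) := by
        intro w hw
        have h1 := (Finset.mem_filter.1 hw).2
        have h6 : 0 < τ * s.dg X z := by positivity
        rw [le_div_iff₀ h6, sq]
        exact mul_le_mul_of_nonneg_left h1.le (Nat.cast_nonneg _)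
      calc (∑ w ∈ F z, (s.mu X z w : ℝ)) ≤ ∑ w ∈ F z, (s.mu X z w : ℝ) ^ 2 / (τ * s.dg X z) :=
            Finset.sum_le_sum h5
        _ ≤ ∑ w ∈ s.B \ X, (s.mu X z w : ℝ) ^ 2 / (τ * s.dg X z) :=
            Finset.sum_le_sum_of_subset_of_nonneg (Finset.filter_subset _ _)
              (fun w _ _ => by positivity)
        _ = (∑ w ∈ s.B \ X, (s.mu X z w : ℝ) ^ 2) / (τ * s.dg X z) := by
            rw [Finset.sum_div]
        _ ≤ (s.dg X z * (Λ * D) + (s.dg X z : ℝ) ^ 2 * (η * D)) / (τ * s.dg X z) := by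
            apply div_le_div_of_nonneg_right hsq
            positivity
        _ = D / τ * (Λ + η * s.dg X z) := by
            field_simp
  calc (((s.Bad κ X).filter fun p => ∃ z ∈ s.N p.1 ∩ X,
        τ * s.dg X z < s.mu X z p.2).card : ℝ) ≤ ((∑ z ∈ X, ∑ w ∈ F z, s.mu X z w : ℕ) : ℝ) := by
        exact_mod_cast hcount
    _ = ∑ z ∈ X, ∑ w ∈ F z, (s.mu X z w : ℝ) := by push_cast; rfl
    _ ≤ ∑ z ∈ X, D / τ * (Λ + η * s.dg X z) := Finset.sum_le_sum hz
    _ = D / τ * (Λ * X.card + 2 * η * (s.Act X).card) := by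
        rw [← Finset.mul_sum, Finset.sum_add_distrib, ← Finset.mul_sum, Finset.sum_const,
          nsmul_eq_mul]
        have := sum_dg s X
        have h7 : (∑ z ∈ X, (s.dg X z : ℝ)) = 2 * (s.Act X).card := by exact_mod_cast this
        rw [h7]
        ring

end Pool.Agent.Helper35.PM
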