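import Pool.Agent.Helper35.PM.Defs2
import Pool.Agent.Helper2.PM.Haussler

/-! PM-6 (project PM, MP_34cda4_co): a connected set of edges with labels gives a projective
space. -/

set_option autoImplicit false

namespace Pool.Agent.Helper35.PM

open Finset
open scoped Classical

theorem add_self_fun {V : Type} (g : V → ZMod 2) : g + g = 0 := by
  funext v
  exact CharTwo.add_self_eq_zero _

theorem neg_fun {V : Type} (g : V → ZMod 2) : -g = g := by
  rw [neg_eq_iff_add_eq_zero]
  exact add_self_fun g

theorem sub_fun {V : Type} (g h : V → ZMod 2) : g - h = g + h := by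
  rw [sub_eq_add_neg, neg_fun]

theorem vec_row {V : Type} (G : SimpleGraph V) (R : Finset V)
    (hR : ∀ x ∈ R, ∀ y ∈ R, ¬ G.Adj x y) {r : V} (hr : r ∈ R) : vec G R r = Pi.single r 1 := by
  funext v
  unfold vec
  by_cases hv : v = r
  · subst hv
    simp [hr]
  · rw [Pi.single_eq_of_ne hv, if_neg]
    rintro ⟨h1, h2 | h2⟩
    · exact hv h2.symm
    · exact hR r hr v h1 h2

theorem bool_a : ∀ p q r : Bool, p ≠ q →
    (if p ≠ r then (1 : ZMod 2) else 0) + (if q ≠ r then 1 else 0) + 1 = 0 := by decide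

theorem bool_b : ∀ p q r : Bool, p ≠ q →
    (if q ≠ r then (1 : ZMod 2) else 0) = (if p ≠ r then 1 else 0) + 1 := by decide

theorem bool_c : ∀ p q : Bool, p ≠ q → (¬ p = true ↔ q = true) := by decide

theorem bool_d : ∀ p q : Bool, (q = false ↔ p = true) → p ≠ q := by decide

theorem bool_e : ∀ p q : Bool, (q = true ↔ p = true) → ¬ p ≠ q := by decide

/-- PM-6 -/
theorem hasPG_of_labels {V : Type} [Fintype V] (G : SimpleGraph V) (k : ℕ) (U W E : Finset V)
    (hE : E.Nonempty) (x y w : V → V) (φ : V → V → Bool)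
    (hind : ∀ u ∈ U ∪ W, ∀ v ∈ U ∪ W, ¬ G.Adj u v) (hUW : Disjoint U W)
    (hx : ∀ a ∈ E, x a ∈ U ∧ y a ∈ U ∧ x a ≠ y a ∧ w a ∈ W)
    (hN : ∀ a ∈ E, ∀ v ∈ U ∪ W, G.Adj a v ↔ (v = x a ∨ v = y a ∨ v = w a))
    (hφ : ∀ a ∈ E, ∀ w' ∈ W, φ w' (x a) ≠ φ w' (y a) ↔ w' = w a)
    (hdeg : ∀ z ∈ U, 2 * k ≤ ((E.filter fun a => x a = z ∨ y a = z).image w).card) :
    HasPG G k := by
  obtain ⟨a0, ha0⟩ := hE
  set z0 := x a0 with hz0
  set rel : V → V → Prop := fun u v => ∃ a ∈ E, (x a = u ∧ y a = v) ∨ (x a = v ∧ y a = u) with hrel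
  set K : Finset V := U.filter (fun z => Relation.ReflTransGen rel z0 z) with hK
  have hz0K : z0 ∈ K := Finset.mem_filter.2 ⟨(hx a0 ha0).1, Relation.ReflTransGen.refl⟩
  have hKU : ∀ z ∈ K, z ∈ U := fun z hz => (Finset.mem_filter.1 hz).1
  have hstep : ∀ u ∈ K, ∀ v, rel u v → v ∈ K := by
    intro u hu v huv
    obtain ⟨a, ha, h⟩ := huv
    refine Finset.mem_filter.2 ⟨?_, (Finset.mem_filter.1 hu).2.tail ⟨a, ha, h⟩⟩
    rcases h with ⟨_, h⟩ | ⟨h, _⟩
    · rw [← h]; exact (hx a ha).2.1
    · rw [← h]; exact (hx a ha).1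
  -- the family of label sets
  set S : V → Finset V := fun z => W.filter (fun w' => φ w' z = true) with hS
  have hsym : ∀ a ∈ E, symmDiff (S (x a)) {w a} = S (y a) := by
    intro a ha
    ext w'
    simp only [Finset.mem_symmDiff, Finset.mem_singleton, hS, Finset.mem_filter]
    have h1 := hφ a ha w'
    have h2 := (hx a ha).2.2.2
    by_cases hw : w' ∈ W
    · have h3 := h1 hw
      by_cases hww : w' = w a
      · have h4 := bool_c _ _ (h3.2 hww)
        rw [← hww]
        constructor
        · rintro (⟨_, h⟩ | ⟨_, h⟩)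
          · exact absurd rfl h
          · exact ⟨hw, h4.1 (fun hc => h ⟨hw, hc⟩)⟩
        · rintro ⟨_, h⟩
          exact Or.inr ⟨rfl, fun hc => h4.2 h hc.2⟩
      · have h4 : φ w' (x a) = φ w' (y a) := by
          by_contra hc
          exact hww (h3.1 hc)
        simp [hw, hww, h4]
    · have hww : w' ≠ w a := by
        rintro rfl
        exact hw h2
      simp [hw, hww]
  have hsym' : ∀ a ∈ E, symmDiff (S (y a)) {w a} = S (x a) := by
    intro a ha
    rw [← hsym a ha, symmDiff_symmDiff_cancel_right]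
  obtain ⟨T, hT, hTk⟩ := haussler (K.image S) ⟨_, Finset.mem_image_of_mem _ hz0K⟩ k (by
    intro s hs
    obtain ⟨z, hz, rfl⟩ := Finset.mem_image.1 hs
    refine ⟨_, hdeg z (hKU z hz), ?_⟩
    intro b hb
    obtain ⟨a, ha, rfl⟩ := Finset.mem_image.1 hb
    obtain ⟨haE, ha'⟩ := Finset.mem_filter.1 ha
    rcases ha' with h | h
    · rw [← h, hsym a haE]
      exact Finset.mem_image_of_mem _ (hstep z hz _ ⟨a, haE, Or.inl ⟨h, rfl⟩⟩)
    · rw [← h, hsym' a haE]
      exact Finset.mem_image_of_mem _ (hstep z hz _ ⟨a, haE, Or.inr ⟨rfl, h⟩⟩))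
  have hTW : T ⊆ W := by
    obtain ⟨s, hs, hs'⟩ := hT (Finset.Subset.refl T)
    obtain ⟨z, hz, rfl⟩ := Finset.mem_image.1 hs
    intro t ht
    rw [← hs'] at ht
    exact (Finset.mem_filter.1 (Finset.mem_inter.1 ht).2).1
  let e : Fin k ≃ T := (Finset.equivFinOfCardEq hTk).symm
  have heT : ∀ i, (e i : V) ∈ T := fun i => (e i).2
  have heW : ∀ i, (e i : V) ∈ W := fun i => hTW (heT i)
  have hinj : ∀ i j, (e i : V) = e j ↔ i = j := by
    intro i j
    rw [Subtype.coe_inj, e.injective.eq_iff]
  set R : Finset V := K ∪ W with hR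
  have hRsub : ∀ v ∈ R, v ∈ U ∪ W := by
    intro v hv
    rcases Finset.mem_union.1 hv with h | h
    · exact Finset.mem_union_left _ (hKU v h)
    · exact Finset.mem_union_right _ h
  have hRind : ∀ u ∈ R, ∀ v ∈ R, ¬ G.Adj u v := fun u hu v hv => hind u (hRsub u hu) v (hRsub v hv)
  have hKW : ∀ z ∈ K, z ∉ W := fun z hz hz' => Finset.disjoint_left.1 hUW (hKU z hz) hz'
  set D : Set V := {d | (d ∈ E ∧ x d ∈ K) ∨ d = z0 ∨ (d ∈ W ∧ d ∉ T)} with hD
  let L : Fin k → V → ZMod 2 := fun i v =>
    if v = e i ∨ (v ∈ K ∧ φ (e i) v ≠ φ (e i) z0) then 1 else 0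
  let Φ : (V → ZMod 2) →ₗ[ZMod 2] (Fin k → ZMod 2) :=
    LinearMap.pi fun i => ∑ v, L i v • LinearMap.proj v
  have hΦ : ∀ r i, Φ (Pi.single r 1) i = L i r := by
    intro r i
    simp only [Φ, LinearMap.pi_apply, LinearMap.sum_apply, LinearMap.smul_apply,
      LinearMap.proj_apply, smul_eq_mul]
    rw [Finset.sum_eq_single r]
    · simp
    · intro b _ hb
      rw [Pi.single_eq_of_ne hb, mul_zero]
    · simp
  -- the vector of an edge
  have hyK : ∀ a ∈ E, x a ∈ K → y a ∈ K := fun a ha h => hstep _ h _ ⟨a, ha, Or.inl ⟨rfl, rfl⟩⟩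
  have hxK : ∀ a ∈ E, y a ∈ K → x a ∈ K := fun a ha h => hstep _ h _ ⟨a, ha, Or.inr ⟨rfl, rfl⟩⟩
  have hvec : ∀ a ∈ E, x a ∈ K → vec G R a =
      Pi.single (x a) 1 + Pi.single (y a) 1 + Pi.single (w a) 1 := by
    intro a ha hxa
    obtain ⟨h1, h2, h3, h4⟩ := hx a ha
    have haR : a ∉ R := by
      intro hc
      have := (hN a ha (x a) (Finset.mem_union_left _ h1)).2 (Or.inl rfl)
      exact hRind a hc (x a) (Finset.mem_union_left _ hxa) this
    have h5 : x a ≠ w a := by
      intro hc
      exact Finset.disjoint_left.1 hUW h1 (hc ▸ h4)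
    have h6 : y a ≠ w a := by
      intro hc
      exact Finset.disjoint_left.1 hUW h2 (hc ▸ h4)
    funext v
    simp only [Pi.add_apply]
    unfold vec
    by_cases hvR : v ∈ R
    · have hav : a ≠ v := by
        rintro rfl
        exact haR hvR
      have h7 := hN a ha v (hRsub v hvR)
      by_cases e1 : v = x a
      · subst e1
        rw [if_pos ⟨hvR, Or.inr (h7.2 (Or.inl rfl))⟩, Pi.single_eq_same, Pi.single_eq_of_ne h3,
          Pi.single_eq_of_ne h5]
        ring
      · by_cases e2 : v = y a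
        · subst e2
          rw [if_pos ⟨hvR, Or.inr (h7.2 (Or.inr (Or.inl rfl)))⟩, Pi.single_eq_same,
            Pi.single_eq_of_ne h3.symm, Pi.single_eq_of_ne h6]
          ring
        · by_cases e3 : v = w a
          · subst e3
            rw [if_pos ⟨hvR, Or.inr (h7.2 (Or.inr (Or.inr rfl)))⟩, Pi.single_eq_same,
              Pi.single_eq_of_ne h5.symm, Pi.single_eq_of_ne h6.symm]
            ring
          · rw [if_neg, Pi.single_eq_of_ne e1, Pi.single_eq_of_ne e2, Pi.single_eq_of_ne e3]
            · ring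
            · rintro ⟨_, h8 | h8⟩
              · exact hav h8
              · rcases h7.1 h8 with h | h | h
                · exact e1 h
                · exact e2 h
                · exact e3 h
    · have e1 : v ≠ x a := by
        rintro rfl
        exact hvR (Finset.mem_union_left _ hxa)
      have e2 : v ≠ y a := by
        rintro rfl
        exact hvR (Finset.mem_union_left _ (hyK a ha hxa))
      have e3 : v ≠ w a := by
        rintro rfl
        exact hvR (Finset.mem_union_right _ h4)
      rw [if_neg (fun h => hvR h.1), Pi.single_eq_of_ne e1, Pi.single_eq_of_ne e2,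
        Pi.single_eq_of_ne e3]
      ring
  have hvK : ∀ z ∈ K, vec G R z = Pi.single z 1 := fun z hz =>
    vec_row G R hRind (Finset.mem_union_left _ hz)
  have hvW : ∀ z ∈ W, vec G R z = Pi.single z 1 := fun z hz =>
    vec_row G R hRind (Finset.mem_union_right _ hz)
  have hLK : ∀ z ∈ K, ∀ i, L i z = if φ (e i) z ≠ φ (e i) z0 then 1 else 0 := by
    intro z hz i
    simp only [L]
    have : z ≠ e i := by
      rintro rfl
      exact hKW _ hz (heW i)
    simp [this, hz]
  have hLW : ∀ z ∈ W, ∀ i, L i z = if z = e i then 1 else 0 := by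
    intro z hz i
    simp only [L]
    have : z ∉ K := fun h => hKW _ h hz
    simp [this]
  have hΦa : ∀ a ∈ E, x a ∈ K → Φ (vec G R a) = 0 := by
    intro a ha hxa
    rw [hvec a ha hxa, map_add, map_add]
    funext i
    simp only [Pi.add_apply, Pi.zero_apply, hΦ]
    rw [hLK _ hxa, hLK _ (hyK a ha hxa), hLW _ (hx a ha).2.2.2]
    have h1 := hφ a ha (e i) (heW i)
    by_cases h2 : (e i : V) = w a
    · have h3 := h1.2 h2
      rw [if_pos h2.symm]
      exact bool_a _ _ _ h3
    · have h4 : φ (e i) (x a) = φ (e i) (y a) := by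
        by_contra hc
        exact h2 (h1.1 hc)
      have h5 : ¬ (w a = (e i : V)) := fun h => h2 h.symm
      rw [if_neg h5, h4, add_zero]
      exact CharTwo.add_self_eq_zero _
  -- the vertices with prescribed patterns
  have hex : ∀ I : Finset (Fin k), ∃ z ∈ K, ∀ i, φ (e i) z ≠ φ (e i) z0 ↔ i ∈ I := by
    intro I
    obtain ⟨s, hs, hs'⟩ := hT (t := T.filter (fun t => ∃ i, t = e i ∧
      (if i ∈ I then φ (e i) z0 = false else φ (e i) z0 = true))) (Finset.filter_subset _ _)
    obtain ⟨z, hz, rfl⟩ := Finset.mem_image.1 hs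
    refine ⟨z, hz, fun i => ?_⟩
    have h1 : (e i : V) ∈ T ∩ S z ↔ φ (e i) z = true := by
      simp only [Finset.mem_inter, hS, Finset.mem_filter]
      exact ⟨fun h => h.2.2, fun h => ⟨heT i, heW i, h⟩⟩
    rw [hs', Finset.mem_filter] at h1
    have h2 : ((e i : V) ∈ T ∧ ∃ j, (e i : V) = e j ∧
      (if j ∈ I then φ (e j) z0 = false else φ (e j) z0 = true)) ↔
      (if i ∈ I then φ (e i) z0 = false else φ (e i) z0 = true) := by
      constructor
      · rintro ⟨_, j, hj, h⟩
        rw [hinj] at hj
        rw [hj]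
        exact h
      · intro h
        exact ⟨heT i, i, rfl, h⟩
    rw [h2] at h1
    by_cases hi : i ∈ I
    · simp only [hi, if_true] at h1
      exact ⟨fun _ => hi, fun _ => bool_d _ _ h1⟩
    · simp only [hi, if_false] at h1
      exact ⟨fun h => absurd h (bool_e _ _ h1), fun h => absurd h hi⟩
  choose f hfK hf using hex
  -- the span
  set M := Submodule.span (ZMod 2) (vec G R '' D) with hM
  have hDM : ∀ d ∈ D, vec G R d ∈ M := fun d hd => Submodule.subset_span ⟨d, hd, rfl⟩
  set cc : V → (V → ZMod 2) := fun z =>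
    ∑ i, (if φ (e i) z ≠ φ (e i) z0 then (1 : ZMod 2) else 0) • vec G R (e i) with hcc
  have hKM : ∀ z, Relation.ReflTransGen rel z0 z → vec G R z - cc z ∈ M := by
    intro z hz
    induction hz with
    | refl =>
      have : cc z0 = 0 := by
        rw [hcc]
        simp
      rw [this, sub_zero]
      exact hDM z0 (Or.inr (Or.inl rfl))
    | tail hzu huv ih =>
      rename_i u v
      have huK : u ∈ K := by
        clear ih huv
        induction hzu with
        | refl => exact hz0K
        | tail _ h2 ih2 => exact hstep _ ih2 _ h2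
      obtain ⟨a, ha, hav⟩ := huv
      have hxa : x a ∈ K := by
        rcases hav with ⟨h, _⟩ | ⟨_, h⟩
        · rw [h]; exact huK
        · exact hxK a ha (h ▸ huK)
      have hya := hyK a ha hxa
      have e1 : vec G R v = vec G R a + vec G R u + vec G R (w a) := by
        rw [hvec a ha hxa, hvW _ (hx a ha).2.2.2]
        rcases hav with ⟨h, h'⟩ | ⟨h, h'⟩
        · subst h; subst h'
          rw [hvK _ hxa, hvK _ hya]
          have := add_self_fun (Pi.single (x a) (1 : ZMod 2) : V → ZMod 2)
          have h2 := add_self_fun (Pi.single (w a) (1 : ZMod 2) : V → ZMod 2)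
          linear_combination (exp := 1) -this - h2
        · subst h; subst h'
          rw [hvK _ hxa, hvK _ hya]
          have := add_self_fun (Pi.single (y a) (1 : ZMod 2) : V → ZMod 2)
          have h2 := add_self_fun (Pi.single (w a) (1 : ZMod 2) : V → ZMod 2)
          linear_combination (exp := 1) -this - h2
      have e2 : cc v = cc u + ∑ i, (if (e i : V) = w a then (1 : ZMod 2) else 0) • vec G R (e i) := by
        simp only [hcc]
        rw [← Finset.sum_add_distrib]
        refine Finset.sum_congr rfl (fun i _ => ?_)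
        rw [← add_smul]
        congr 1
        have h1 := hφ a ha (e i) (heW i)
        have h1' : φ (e i) u ≠ φ (e i) v ↔ (e i : V) = w a := by
          rcases hav with ⟨h, h'⟩ | ⟨h, h'⟩
          · rw [← h, ← h']; exact h1
          · rw [← h, ← h']; exact ne_comm.trans h1
        by_cases h2 : (e i : V) = w a
        · have h3 := h1'.2 h2
          rw [if_pos h2]
          exact bool_b _ _ _ h3
        · have h4 : φ (e i) u = φ (e i) v := by
            by_contra hc
            exact h2 (h1'.1 hc)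
          rw [if_neg h2, h4, add_zero]
      have e3 : vec G R (w a) - ∑ i, (if (e i : V) = w a then (1 : ZMod 2) else 0) • vec G R (e i) ∈ M := by
        by_cases hwT : w a ∈ T
        · have : ∑ i, (if (e i : V) = w a then (1 : ZMod 2) else 0) • vec G R (e i) = vec G R (w a) := by
            rw [Finset.sum_eq_single (e.symm ⟨w a, hwT⟩)]
            · simp
            · intro j _ hj
              rw [if_neg, zero_smul]
              intro hc
              apply hj
              rw [Equiv.eq_symm_apply]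
              exact Subtype.ext hc
            · simp
          rw [this, sub_self]
          exact M.zero_mem
        · have : ∑ i, (if (e i : V) = w a then (1 : ZMod 2) else 0) • vec G R (e i) = 0 := by
            refine Finset.sum_eq_zero (fun i _ => ?_)
            rw [if_neg, zero_smul]
            intro hc
            exact hwT (hc ▸ heT i)
          rw [this, sub_zero]
          exact hDM _ (Or.inr (Or.inr ⟨(hx a ha).2.2.2, hwT⟩))
      have e4 : vec G R v - cc v = vec G R a + (vec G R u - cc u) +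
          (vec G R (w a) - ∑ i, (if (e i : V) = w a then (1 : ZMod 2) else 0) • vec G R (e i)) := by
        rw [e1, e2]
        abel
      rw [e4]
      exact M.add_mem (M.add_mem (hDM a (Or.inl ⟨ha, hxa⟩)) ih) e3
  have hcf : ∀ I : Finset (Fin k), cc (f I) = ∑ i ∈ I, vec G R (e i) := by
    intro I
    simp only [hcc]
    rw [← Finset.sum_filter_add_sum_filter_not Finset.univ (fun i => i ∈ I)]
    have h1 : ∑ i ∈ Finset.univ.filter (fun i => i ∉ I),
        (if φ (e i) (f I) ≠ φ (e i) z0 then (1 : ZMod 2) else 0) • vec G R (e i) = 0 := by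
      refine Finset.sum_eq_zero (fun i hi => ?_)
      rw [if_neg, zero_smul]
      intro hc
      exact (Finset.mem_filter.1 hi).2 ((hf I i).1 hc)
    rw [h1, add_zero]
    have h2 : Finset.univ.filter (fun i => i ∈ I) = I := by ext i; simp
    rw [h2]
    refine Finset.sum_congr rfl (fun i hi => ?_)
    rw [if_pos ((hf I i).2 hi), one_smul]
  refine ⟨R, hRind, D, f, Φ, ?_, ?_, ?_⟩
  · rintro d (⟨hd, hd'⟩ | rfl | ⟨hd, hd'⟩)
    · exact hΦa d hd hd'
    · rw [hvK _ hz0K]
      funext i
      rw [hΦ, hLK _ hz0K]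
      simp
    · rw [hvW _ hd]
      funext i
      rw [hΦ, hLW _ hd, if_neg]
      · rfl
      · rintro rfl
        exact hd' (heT i)
  · intro I _
    rw [hvK _ (hfK I)]
    funext i
    rw [hΦ, hLK _ (hfK I)]
    by_cases hi : i ∈ I
    · rw [if_pos ((hf I i).2 hi), if_pos hi]
    · rw [if_neg (fun h => hi ((hf I i).1 h)), if_neg hi]
  · intro I _
    have h1 : ∀ J : Finset (Fin k), vec G R (f J) - ∑ i ∈ J, vec G R (e i) ∈ M := by
      intro J
      rw [← hcf]
      exact hKM _ (Finset.mem_filter.1 (hfK J)).2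
    have h2 : vec G R (f I) - ∑ i ∈ I, vec G R (f {i}) =
        (vec G R (f I) - ∑ i ∈ I, vec G R (e i)) -
        ∑ i ∈ I, (vec G R (f {i}) - vec G R (e i)) := by
      rw [Finset.sum_sub_distrib]
      abel
    rw [h2]
    refine M.sub_mem (h1 I) (M.sum_mem (fun i _ => ?_))
    have := h1 {i}
    rwa [Finset.sum_singleton] at this

end Pool.Agent.Helper35.PM
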