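import Pool.Agent.Helper64.PM.Labels
import Pool.Agent.Helper64.PM.Heavy

/-! PM-7d (project PM, MP_34cda4_co): cleaning. -/

set_option autoImplicit false

namespace Pool.Agent.Helper35.PM

open Finset
open scoped Classical

/-- PM-7d: cleaning. -/
theorem hasPG_of_light {V : Type} [Fintype V] (s : Sys V) (Λ D η : ℝ) (q : ℕ)
    (hs : s.OK Λ D η q) (κ k : ℕ) (X Y W : Finset V) (hX : X ⊆ s.B) (hY : Y ⊆ X)
    (hW : W ⊆ s.B \ X) (φ : V → V → Bool)
    (hφ : ∀ w, ∀ x ∈ Y, ∀ y ∈ Y, (s.QG (insert w X)).Adj x y → φ w x = φ w y)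
    (J : Finset (V × V)) (hJ : J ⊆ s.Bad κ X) (hJne : J.Nonempty) (τ δ₁ : ℝ) (hτ : 0 < τ)
    (hδ : 8 * k * τ ≤ δ₁)
    (hlight : ∀ p ∈ J, ∀ z ∈ s.N p.1 ∩ X, (s.mu X z p.2 : ℝ) ≤ τ * s.dg X z)
    (hJ1 : ∀ p ∈ J, s.N p.1 ∩ X ⊆ Y ∧ ∃ x ∈ s.N p.1 ∩ X, ∃ y ∈ s.N p.1 ∩ X, φ p.2 x ≠ φ p.2 y)
    (hJ2 : ∀ p ∈ J, p.2 ∈ W ∧ s.N p.1 ∩ W = {p.2} ∧ ∀ z ∈ insert p.2 (s.N p.1 ∩ X),
        Disjoint (s.Bk z) W)
    (hbig : δ₁ * (s.Act X).card ≤ J.card) : HasPG s.G k := by
  have hδ0 : 0 ≤ δ₁ := le_trans (by positivity) hδ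
  -- facts on bad pairs
  have hact : ∀ p ∈ J, p.1 ∈ s.Act X := fun p hp =>
    (Finset.mem_product.1 (Finset.mem_filter.1 (hJ hp)).1).1
  have hfree : ∀ p ∈ J, s.N p.1 ∩ insert p.2 X ⊆ s.Free (insert p.2 X) := fun p hp =>
    (Finset.mem_filter.1 (hJ hp)).2.2.1
  have hmemN : ∀ p ∈ J, p.2 ∈ s.N p.1 := fun p hp => (Finset.mem_filter.1 (hJ hp)).2.1
  have hcard2 : ∀ p ∈ J, (s.N p.1 ∩ X).card = 2 := fun p hp =>
    (Finset.mem_filter.1 (hact p hp)).2.1
  have hWX : ∀ v ∈ W, v ∉ X := fun v hv => (Finset.mem_sdiff.1 (hW hv)).2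
  have hWB : ∀ v ∈ W, v ∈ s.B := fun v hv => (Finset.mem_sdiff.1 (hW hv)).1
  have hinj : ∀ p ∈ J, ∀ p' ∈ J, p.1 = p'.1 → p = p' := by
    intro p hp p' hp' h
    have h1 := (hJ2 p hp).2.1
    have h2 := (hJ2 p' hp').2.1
    rw [h, h2, Finset.singleton_inj] at h1
    exact Prod.ext h h1.symm
  -- optimal U
  set JU : Finset V → Finset (V × V) := fun U => J.filter (fun p => s.N p.1 ∩ X ⊆ U) with hJU
  set g : Finset V → ℝ := fun U => ((JU U).card : ℝ) - δ₁ / 4 * ∑ z ∈ U, (s.dg X z : ℝ) with hg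
  obtain ⟨U, hUmem, hUmax⟩ := Finset.exists_max_image X.powerset g ⟨X, by simp⟩
  have hUX : U ⊆ X := Finset.mem_powerset.1 hUmem
  have hJX : JU X = J := by
    rw [hJU]
    exact Finset.filter_true_of_mem (fun p _ => Finset.inter_subset_right)
  have hgX : 0 < g X := by
    simp only [hg]
    rw [hJX]
    have h1 : (∑ z ∈ X, (s.dg X z : ℝ)) = 2 * (s.Act X).card := by
      have := sum_dg s X
      exact_mod_cast this
    rw [h1]
    have h2 : (0 : ℝ) < J.card := by exact_mod_cast hJne.card_pos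
    linarith
  have hgU : 0 < g U := lt_of_lt_of_le hgX (hUmax X (by simp))
  have hJUne : (JU U).Nonempty := by
    rw [← Finset.card_pos]
    by_contra hc
    have h0 : (JU U).card = 0 := by omega
    simp only [hg, h0] at hgU
    have h3 : 0 ≤ δ₁ / 4 * ∑ z ∈ U, (s.dg X z : ℝ) := by positivity
    push_cast at hgU
    linarith
  have hdel : ∀ z ∈ U, δ₁ / 4 * s.dg X z ≤ (((JU U).filter (fun p => z ∈ s.N p.1)).card : ℝ) := by
    intro z hz
    have h1 := hUmax (U.erase z) (Finset.mem_powerset.2 ((Finset.erase_subset _ _).trans hUX))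
    simp only [hg] at h1
    have h2 : ∑ z' ∈ U, (s.dg X z' : ℝ) = ∑ z' ∈ U.erase z, (s.dg X z' : ℝ) + s.dg X z := by
      rw [Finset.sum_erase_add _ _ hz]
    have h3 : JU (U.erase z) = (JU U).filter (fun p => ¬ z ∈ s.N p.1) := by
      ext p
      simp only [hJU, Finset.mem_filter]
      constructor
      · rintro ⟨hp, h⟩
        refine ⟨⟨hp, h.trans (Finset.erase_subset _ _)⟩, fun hc => ?_⟩
        have := h (Finset.mem_inter.2 ⟨hc, hUX hz⟩)
        exact (Finset.mem_erase.1 this).1 rfl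
      · rintro ⟨⟨hp, h⟩, h'⟩
        refine ⟨hp, fun v hv => Finset.mem_erase.2 ⟨?_, h hv⟩⟩
        rintro rfl
        exact h' (Finset.mem_inter.1 hv).1
    have h4 := Finset.card_filter_add_card_filter_not (s := JU U) (fun p => z ∈ s.N p.1)
    rw [h3, h2] at h1
    have h5 : (((JU U).filter (fun p => z ∈ s.N p.1)).card : ℝ) +
        (((JU U).filter (fun p => ¬ z ∈ s.N p.1)).card : ℝ) = (JU U).card := by
      exact_mod_cast h4
    nlinarith
  have hJUJ : ∀ p ∈ JU U, p ∈ J := fun p hp => (Finset.mem_filter.1 hp).1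
  have hJUU : ∀ p ∈ JU U, s.N p.1 ∩ X ⊆ U := fun p hp => (Finset.mem_filter.1 hp).2
  -- the data
  set E : Finset V := (JU U).image Prod.fst with hE
  set W' : Finset V := (JU U).image Prod.snd with hW'
  set U' : Finset V := (JU U).biUnion (fun p => s.N p.1 ∩ X) with hU'
  have hwex : ∀ a, ∃ w, a ∈ E → (a, w) ∈ JU U := by
    intro a
    by_cases ha : a ∈ E
    · obtain ⟨p, hp, rfl⟩ := Finset.mem_image.1 ha
      exact ⟨p.2, fun _ => hp⟩
    · exact ⟨a, fun h => absurd h ha⟩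
  choose w hw using hwex
  have hxyex : ∀ a, ∃ x y : V, a ∈ E → x ≠ y ∧ s.N a ∩ X = {x, y} := by
    intro a
    by_cases ha : a ∈ E
    · obtain ⟨x, y, h1, h2⟩ := Finset.card_eq_two.1 (hcard2 _ (hJUJ _ (hw a ha)))
      exact ⟨x, y, fun _ => ⟨h1, h2⟩⟩
    · exact ⟨a, a, fun h => absurd h ha⟩
  choose x y hxy using hxyex
  have hU'X : ∀ v ∈ U', v ∈ X := by
    intro v hv
    obtain ⟨p, _, hv'⟩ := Finset.mem_biUnion.1 hv
    exact (Finset.mem_inter.1 hv').2
  have hU'U : ∀ v ∈ U', v ∈ U := by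
    intro v hv
    obtain ⟨p, hp, hv'⟩ := Finset.mem_biUnion.1 hv
    exact hJUU p hp hv'
  have hW'W : ∀ v ∈ W', v ∈ W := by
    intro v hv
    obtain ⟨p, hp, rfl⟩ := Finset.mem_image.1 hv
    exact (hJ2 p (hJUJ p hp)).1
  -- back neighbours
  have hBk1 : ∀ p ∈ J, ∀ v ∈ s.N p.1 ∩ X, Disjoint (s.Bk v) X ∧ Disjoint (s.Bk v) W := by
    intro p hp v hv
    refine ⟨?_, (hJ2 p hp).2.2 v (Finset.mem_insert_of_mem hv)⟩
    exact (Finset.mem_filter.1 ((Finset.mem_filter.1 (hact p hp)).2.2.1 hv)).2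
  have hBk2 : ∀ p ∈ J, Disjoint (s.Bk p.2) X ∧ Disjoint (s.Bk p.2) W := by
    intro p hp
    refine ⟨?_, (hJ2 p hp).2.2 p.2 (Finset.mem_insert_self _ _)⟩
    have h1 := hfree p hp (Finset.mem_inter.2 ⟨hmemN p hp, Finset.mem_insert_self _ _⟩)
    exact Finset.disjoint_of_subset_right (Finset.subset_insert _ _) (Finset.mem_filter.1 h1).2
  have hBk : ∀ v ∈ U' ∪ W', Disjoint (s.Bk v) X ∧ Disjoint (s.Bk v) W := by
    intro v hv
    rcases Finset.mem_union.1 hv with hv | hv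
    · obtain ⟨p, hp, hv'⟩ := Finset.mem_biUnion.1 hv
      exact hBk1 p (hJUJ p hp) v hv'
    · obtain ⟨p, hp, rfl⟩ := Finset.mem_image.1 hv
      exact hBk2 p (hJUJ p hp)
  have hXW : ∀ v ∈ U' ∪ W', v ∈ X ∨ v ∈ W := by
    intro v hv
    rcases Finset.mem_union.1 hv with hv | hv
    · exact Or.inl (hU'X v hv)
    · exact Or.inr (hW'W v hv)
  have hBB : ∀ v ∈ U' ∪ W', v ∈ s.B := by
    intro v hv
    rcases hXW v hv with hv | hv
    · exact hX hv
    · exact hWB v hv
  have hnot : ∀ u ∈ U' ∪ W', ∀ v ∈ U' ∪ W', v ∉ s.Bk u := by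
    intro u hu v hv hc
    rcases hXW v hv with h | h
    · exact Finset.disjoint_left.1 (hBk u hu).1 hc h
    · exact Finset.disjoint_left.1 (hBk u hu).2 hc h
  refine hasPG_of_labels s.G k U' W' E ?_ x y w φ ?_ ?_ ?_ ?_ ?_ ?_
  · exact hJUne.image _
  · intro u hu v hv hadj
    rcases hs.back_cover u (hBB u hu) v (hBB v hv) hadj with h | h
    · exact hnot u hu v hv h
    · exact hnot v hv u hu h
  · rw [Finset.disjoint_left]
    intro v hv hv'
    exact hWX v (hW'W v hv') (hU'X v hv)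
  · intro a ha
    obtain ⟨h1, h2⟩ := hxy a ha
    refine ⟨?_, ?_, h1, Finset.mem_image.2 ⟨_, hw a ha, rfl⟩⟩
    · exact Finset.mem_biUnion.2 ⟨_, hw a ha, by rw [h2]; simp⟩
    · exact Finset.mem_biUnion.2 ⟨_, hw a ha, by rw [h2]; simp⟩
  · intro a ha v hv
    obtain ⟨h1, h2⟩ := hxy a ha
    have h3 := (hJ2 _ (hJUJ _ (hw a ha))).2.1
    have hvB := hBB v hv
    have hadj : s.G.Adj a v ↔ v ∈ s.N a := by
      unfold Sys.N
      simp [hvB]
    rw [hadj]
    have hxX : x a ∈ X := (Finset.mem_inter.1 (h2 ▸ Finset.mem_insert_self _ _ : x a ∈ s.N a ∩ X)).2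
    have hyX : y a ∈ X := (Finset.mem_inter.1 (by rw [h2]; simp : y a ∈ s.N a ∩ X)).2
    rcases hXW v hv with h | h
    · have h4 : v ≠ w a := by
        rintro rfl
        exact hWX _ (hJ2 _ (hJUJ _ (hw a ha))).1 h
      have h5 : v ∈ s.N a ↔ v ∈ s.N a ∩ X := by simp [h]
      rw [h5, h2]
      simp [h4]
    · have h4 : v ≠ x a := by
        rintro rfl
        exact hWX _ h hxX
      have h4' : v ≠ y a := by
        rintro rfl
        exact hWX _ h hyX
      have h5 : v ∈ s.N a ↔ v ∈ s.N a ∩ W := by simp [h]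
      rw [h5, h3]
      simp [h4, h4']
  · intro a ha w' hw'
    obtain ⟨h1, h2⟩ := hxy a ha
    have hp := hJUJ _ (hw a ha)
    constructor
    · intro hne
      by_contra hc
      apply hne
      have hw'W := hW'W w' hw'
      have hw'N : w' ∉ s.N a := by
        intro hcon
        have : w' ∈ s.N a ∩ W := Finset.mem_inter.2 ⟨hcon, hw'W⟩
        rw [(hJ2 _ hp).2.1] at this
        exact hc (Finset.mem_singleton.1 this)
      have hins : s.N a ∩ insert w' X = s.N a ∩ X := by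
        ext v
        simp only [Finset.mem_inter, Finset.mem_insert]
        constructor
        · rintro ⟨h3, h4 | h4⟩
          · exact absurd (h4 ▸ h3) hw'N
          · exact ⟨h3, h4⟩
        · rintro ⟨h3, h4⟩
          exact ⟨h3, Or.inr h4⟩
      have hactA := Finset.mem_filter.1 (hact _ hp)
      have hact' : a ∈ s.Act (insert w' X) := by
        unfold Sys.Act
        rw [Finset.mem_filter, hins]
        refine ⟨hactA.1, hactA.2.1, ?_, hactA.2.2.2⟩
        intro v hv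
        unfold Sys.Free
        rw [Finset.mem_filter]
        refine ⟨Finset.mem_insert_of_mem (Finset.mem_inter.1 hv).2, ?_⟩
        rw [Finset.disjoint_insert_right]
        obtain ⟨b1, b2⟩ := hBk1 _ hp v hv
        exact ⟨fun hcon => Finset.disjoint_left.1 b2 hcon hw'W, b1⟩
      have hadj : (s.QG (insert w' X)).Adj (x a) (y a) := ⟨h1, a, hact', by rw [hins, h2]⟩
      have hYsub := (hJ1 _ hp).1
      simp only at hYsub
      rw [h2] at hYsub
      exact hφ w' (x a) (hYsub (by simp)) (y a) (hYsub (by simp)) hadj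
    · intro hww
      obtain ⟨_, u, hu, v, hv, huv⟩ := hJ1 _ hp
      simp only at hu hv huv
      rw [h2] at hu hv
      rw [hww]
      simp only [Finset.mem_insert, Finset.mem_singleton] at hu hv
      rcases hu with rfl | rfl <;> rcases hv with rfl | rfl
      · exact absurd rfl huv
      · exact huv
      · exact huv.symm
      · exact absurd rfl huv
  · intro z hz
    obtain ⟨p0, hp0, hz0⟩ := Finset.mem_biUnion.1 hz
    have hzX := hU'X z hz
    have hdg : 1 ≤ s.dg X z := by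
      unfold Sys.dg
      exact Finset.card_pos.2 ⟨p0.1, Finset.mem_filter.2 ⟨hact _ (hJUJ _ hp0),
        (Finset.mem_inter.1 hz0).1⟩⟩
    set P : Finset (V × V) := (JU U).filter (fun p => z ∈ s.N p.1) with hP
    have h1 := hdel z (hU'U z hz)
    have himg : P.image Prod.snd ⊆ ((E.filter fun a => x a = z ∨ y a = z).image w) := by
      intro v hv
      obtain ⟨p, hp, rfl⟩ := Finset.mem_image.1 hv
      obtain ⟨hp1, hp2⟩ := Finset.mem_filter.1 hp
      have hpE : p.1 ∈ E := Finset.mem_image_of_mem _ hp1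
      refine Finset.mem_image.2 ⟨p.1, Finset.mem_filter.2 ⟨hpE, ?_⟩, ?_⟩
      · have : z ∈ s.N p.1 ∩ X := Finset.mem_inter.2 ⟨hp2, hzX⟩
        rw [(hxy _ hpE).2] at this
        simp only [Finset.mem_insert, Finset.mem_singleton] at this
        rcases this with h | h
        · exact Or.inl h.symm
        · exact Or.inr h.symm
      · have := hinj _ (hJUJ _ (hw _ hpE)) p (hJUJ _ hp1) rfl
        exact congrArg Prod.snd this
    refine le_trans ?_ (Finset.card_le_card himg)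
    -- every label occurs at most tau dg z times
    have hfib : ∀ v ∈ P.image Prod.snd, (((P.filter (fun p => p.2 = v)).card : ℕ) : ℝ) ≤
        τ * s.dg X z := by
      intro v hv
      obtain ⟨p, hp, rfl⟩ := Finset.mem_image.1 hv
      obtain ⟨hp1, hp2⟩ := Finset.mem_filter.1 hp
      refine le_trans ?_ (hlight p (hJUJ _ hp1) z (Finset.mem_inter.2 ⟨hp2, hzX⟩))
      unfold Sys.mu
      have : (P.filter (fun p' => p'.2 = p.2)).card =
          ((P.filter (fun p' => p'.2 = p.2)).image Prod.fst).card := by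
        rw [Finset.card_image_of_injOn]
        intro p1 h1 p2 h2 h
        have h1' := (Finset.mem_filter.1 (Finset.mem_filter.1 (Finset.mem_coe.1 h1)).1).1
        have h2' := (Finset.mem_filter.1 (Finset.mem_filter.1 (Finset.mem_coe.1 h2)).1).1
        exact hinj _ (hJUJ _ h1') _ (hJUJ _ h2') h
      rw [this]
      norm_cast
      apply Finset.card_le_card
      intro a ha
      obtain ⟨p', hp', rfl⟩ := Finset.mem_image.1 ha
      obtain ⟨hp'1, hp'2⟩ := Finset.mem_filter.1 hp'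
      obtain ⟨hp'3, hp'4⟩ := Finset.mem_filter.1 hp'1
      exact Finset.mem_filter.2 ⟨hact _ (hJUJ _ hp'3), hp'4, hp'2 ▸ hmemN _ (hJUJ _ hp'3)⟩
    have hsum : (P.card : ℝ) ≤ (P.image Prod.snd).card * (τ * s.dg X z) := by
      have h2 : P.card = ∑ v ∈ P.image Prod.snd, (P.filter (fun p => p.2 = v)).card :=
        Finset.card_eq_sum_card_image Prod.snd P
      rw [h2]
      push_cast
      refine (Finset.sum_le_sum hfib).trans ?_
      rw [Finset.sum_const, nsmul_eq_mul]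
    have hdg' : (1 : ℝ) ≤ s.dg X z := by exact_mod_cast hdg
    have h3 : (2 * k : ℝ) * (τ * s.dg X z) ≤ (P.image Prod.snd).card * (τ * s.dg X z) := by
      refine le_trans ?_ (h1.trans hsum)
      have : (2 * k : ℝ) * τ ≤ δ₁ / 4 := by linarith
      nlinarith
    have h4 : (2 * k : ℝ) ≤ (P.image Prod.snd).card :=
      le_of_mul_le_mul_right h3 (by positivity)
    exact_mod_cast h4

end Pool.Agent.Helper35.PM
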